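import Mathlib

namespace Pool.Agent.Results.MP_b50e26_gt.Finite

universe u

/-- `f` is positive refinement expansive: there is a finite open cover `U 0, …, U (n-1)` such
that for every open cover `𝒱` and every sequence `k : ℕ → Fin n` some `N` has
`⋂_{j=0}^N f^{-j} (U (k j))` contained in a member of `𝒱`. -/
def PosRefExp {X : Type u} [TopologicalSpace X] (f : X ≃ₜ X) : Prop :=
  ∃ (n : ℕ) (U : Fin n → Set X), (∀ i, IsOpen (U i)) ∧ (⋃ i, U i) = Set.univ ∧
    ∀ 𝒱 : Set (Set X), (∀ V ∈ 𝒱, IsOpen V) → ⋃₀ 𝒱 = Set.univ →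
      ∀ k : ℕ → Fin n, ∃ N : ℕ, ∃ V ∈ 𝒱, (⋂ j ∈ Set.Iic N, (f^[j]) ⁻¹' (U (k j))) ⊆ V

theorem uniform {X : Type u} {n : ℕ} (f : X → X) (U : Fin n → Set X) (𝒱 : Set (Set X))
    (h : ∀ k : ℕ → Fin n, ∃ N : ℕ, ∃ V ∈ 𝒱, (⋂ j ∈ Set.Iic N, (f^[j]) ⁻¹' (U (k j))) ⊆ V) :
    ∃ N : ℕ, ∀ k : ℕ → Fin n, ∃ V ∈ 𝒱, ∀ x, (∀ j ≤ N, f^[j] x ∈ U (k j)) → x ∈ V := by
  let O : ℕ → Set (ℕ → Fin n) := fun N =>
    {k | ∃ V ∈ 𝒱, ∀ x, (∀ j ≤ N, f^[j] x ∈ U (k j)) → x ∈ V}
  have hO : ∀ N, IsOpen (O N) := by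
    intro N
    rw [isOpen_iff_mem_nhds]
    rintro k ⟨V, hV, hk⟩
    have h1 : IsOpen (⋂ j ∈ Set.Iic N, {k' : ℕ → Fin n | k' j = k j}) := by
      refine (Set.finite_Iic N).isOpen_biInter fun j _ => ?_
      have hc : Continuous fun k' : ℕ → Fin n => k' j := continuous_apply j
      exact (isOpen_discrete ({k j} : Set (Fin n))).preimage hc
    refine Filter.mem_of_superset (h1.mem_nhds ?_) ?_
    · simp
    · intro k' hk'
      simp only [Set.mem_iInter, Set.mem_ofPred_eq, Set.mem_Iic] at hk'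
      refine ⟨V, hV, fun x hx => hk x fun j hj => ?_⟩
      rw [← hk' j hj]
      exact hx j hj
  have hmono : Monotone O := by
    rintro a b hab k ⟨V, hV, hk⟩
    exact ⟨V, hV, fun x hx => hk x fun j hj => hx j (hj.trans hab)⟩
  have hcov : (Set.univ : Set (ℕ → Fin n)) ⊆ ⋃ N, O N := by
    intro k _
    obtain ⟨N, V, hV, hk⟩ := h k
    refine Set.mem_iUnion.2 ⟨N, V, hV, fun x hx => hk ?_⟩
    simp only [Set.mem_iInter, Set.mem_preimage, Set.mem_Iic]
    exact hx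
  obtain ⟨N, hN⟩ := isCompact_univ.elim_directed_cover O hO hcov hmono.directed_le
  exact ⟨N, fun k => hN (Set.mem_univ k)⟩

theorem result (X : Type u) [TopologicalSpace X] [T1Space X] (f : X ≃ₜ X)
    (h : PosRefExp f) : Finite X := by
  classical
  obtain ⟨n, U, hUo, hUc, hU⟩ := h
  have hpt : ∀ x, ∃ i, x ∈ U i := fun x => by
    have : x ∈ ⋃ i, U i := hUc ▸ Set.mem_univ x
    exact Set.mem_iUnion.1 this
  -- step 2
  obtain ⟨N₀, hN₀⟩ := uniform f U (Set.range fun i => f.symm ⁻¹' U i)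
    (hU _ (by
      rintro _ ⟨i, rfl⟩
      exact (hUo i).preimage f.symm.continuous) (by
      refine Set.eq_univ_of_forall fun x => ?_
      obtain ⟨i, hi⟩ := hpt (f.symm x)
      exact ⟨_, ⟨i, rfl⟩, hi⟩))
  have hback : ∀ m : ℕ, ∀ k : ℕ → Fin n, ∃ k' : ℕ → Fin n, ∀ x,
      (∀ j ≤ N₀, f^[j] x ∈ U (k j)) → ∀ j ≤ N₀ + m, f^[j] (f.symm^[m] x) ∈ U (k' j) := by
    intro m k
    induction m with
    | zero => exact ⟨k, fun x hx j hj => hx j (by simpa using hj)⟩
    | succ m ih =>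
      obtain ⟨k', hk'⟩ := ih
      obtain ⟨_, ⟨i, rfl⟩, hi⟩ := hN₀ k'
      refine ⟨fun j => Nat.casesOn j i k', fun x hx j hj => ?_⟩
      rw [Function.iterate_succ_apply']
      cases j with
      | zero =>
        exact hi _ fun j hj => hk' x hx j (by omega)
      | succ j =>
        rw [Function.iterate_succ_apply, f.apply_symm_apply]
        exact hk' x hx j (by omega)
  by_contra hinf
  rw [not_finite_iff_infinite] at hinf
  obtain ⟨S, hS⟩ := Infinite.exists_subset_card_eq X (Fintype.card (Fin (N₀ + 1) → Fin n) + 1)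
  have hSne : S.Nonempty := by
    rw [← Finset.card_pos, hS]; omega
  obtain ⟨M, hM⟩ := uniform f U ((fun s => ((S.erase s : Finset X) : Set X)ᶜ) '' (S : Set X))
    (hU _ (by
      rintro _ ⟨s, _, rfl⟩
      exact (Finset.finite_toSet _).isClosed.isOpen_compl) (by
      refine Set.eq_univ_of_forall fun x => ?_
      by_cases hx : x ∈ S
      · exact ⟨_, ⟨x, hx, rfl⟩, by simp⟩
      · obtain ⟨s, hs⟩ := hSne
        exact ⟨_, ⟨s, hs, rfl⟩, by simp [hx]⟩))
  choose c hc using hpt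
  let φ : X → (Fin (N₀ + 1) → Fin n) := fun s j => c (f^[j] (f^[M] s))
  obtain ⟨s, hs, t, ht, hst, hφ⟩ := Finset.exists_ne_map_eq_of_card_lt_of_maps_to
    (s := S) (t := (Finset.univ : Finset (Fin (N₀ + 1) → Fin n))) (f := φ)
    (by rw [hS, Finset.card_univ]; omega) (fun _ _ => Finset.mem_coe.2 (Finset.mem_univ _))
  obtain ⟨k', hk'⟩ := hback M fun j => c (f^[j] (f^[M] s))
  obtain ⟨_, ⟨r, hr, rfl⟩, hV⟩ := hM k'
  have hinv : ∀ y, f.symm^[M] (f^[M] y) = y := fun y =>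
    (Function.LeftInverse.iterate f.symm_apply_apply M) y
  have h1 : s ∈ ((S.erase r : Finset X) : Set X)ᶜ := by
    refine hV s fun j hj => ?_
    have := hk' (f^[M] s) (fun j _ => hc _) j (by omega)
    rwa [hinv] at this
  have h2 : t ∈ ((S.erase r : Finset X) : Set X)ᶜ := by
    refine hV t fun j hj => ?_
    have := hk' (f^[M] t) (fun j hj => by
      have h3 : φ s ⟨j, by omega⟩ = φ t ⟨j, by omega⟩ := by rw [hφ]
      simp only [φ] at h3
      rw [h3]
      exact hc _) j (by omega)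
    rwa [hinv] at this
  have hs' : s = r := by
    by_contra hne
    exact h1 (by simp [hne, hs])
  have ht' : t = r := by
    by_contra hne
    exact h2 (by simp [hne, ht])
  exact hst (hs'.trans ht'.symm)

end Pool.Agent.Results.MP_b50e26_gt.Finite
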